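import Pool.Agent.PakC

set_option autoImplicit false
set_option linter.unusedSectionVars false

namespace Pool.Agent.Results.MP_4b7267_pr.NoCutoff

open Filter Topology Finset

/-- Transition matrix `P = ½ (I + D⁻¹ A)` of the lazy simple random walk on a graph. -/
noncomputable def lazyWalk {V : Type} [Fintype V] [DecidableEq V] (G : SimpleGraph V)
    [DecidableRel G.Adj] : Matrix V V ℝ := fun x y =>
  (1 / 2) * ((if x = y then 1 else 0) + (if G.Adj x y then 1 / (G.degree x : ℝ) else 0))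

/-- `d(t) = max_x ‖P^t(x,·) - π‖_TV`, with `π` uniform on `V`. -/
noncomputable def dist {V : Type} [Fintype V] [DecidableEq V] (P : Matrix V V ℝ) (t : ℕ) : ℝ :=
  ⨆ x, (1 / 2) * ∑ y, |(P ^ t) x y - 1 / (Fintype.card V : ℝ)|

/-- `t_mix(ε)`: the first time at which `d(t) ≤ ε`. -/
noncomputable def tmix {V : Type} [Fintype V] [DecidableEq V] (P : Matrix V V ℝ) (ε : ℝ) : ℕ :=
  sInf {t : ℕ | dist P t ≤ ε}

/-- The largest eigenvalue of `P` different from `1` (the graphs are connected, so the eigenvalue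
`1` is simple and this is the second largest eigenvalue). -/
noncomputable def lam2 {V : Type} [Fintype V] [DecidableEq V] (P : Matrix V V ℝ) : ℝ :=
  sSup {l : ℝ | l ≠ 1 ∧ ∃ f : V → ℝ, f ≠ 0 ∧ P.mulVec f = l • f}

/-- relaxation time -/
noncomputable def trel {V : Type} [Fintype V] [DecidableEq V] (P : Matrix V V ℝ) : ℝ :=
  1 / (1 - lam2 P)

lemma lazy_eq {n : ℕ} (π : Pak.Params n) [DecidableRel (Pak.GG π).Adj] :
    lazyWalk (Pak.GG π) = Pak.PP π := by
  ext x y
  rw [Pak.PP_apply']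
  unfold lazyWalk
  rw [Pak.GG_degree]
  have hD := Pak.DD_ge1 π
  unfold Pak.cc
  split_ifs <;> field_simp <;> ring

lemma dist_eq {n : ℕ} (π : Pak.Params n) (t : ℕ) : dist (Pak.PP π) t = Pak.tv π t 0 :=
  Pak.iSup_tv π t

lemma tmix_eq {n : ℕ} (π : Pak.Params n) (ε : ℝ) :
    tmix (Pak.PP π) ε = Pak.tm (fun t => Pak.tv π t 0) ε := by
  unfold tmix Pak.tm
  simp_rw [dist_eq]

lemma lam2_le {n : ℕ} (π : Pak.Params n) (hn : 1 ≤ n) : lam2 (Pak.PP π) ≤ 5 / 6 := by
  unfold lam2
  apply Real.sSup_le _ (by norm_num)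
  rintro l ⟨hl, f, hf, hPf⟩
  have h := Pak.eig_bound π hn f hf l (fun x => by
    have := congrFun hPf x
    simpa [Matrix.mulVec, dotProduct] using this) hl
  exact (le_abs_self l).trans h

/-- **Main theorem.** It is false that for every sequence of finite connected vertex-transitive
graphs with `|V_n| → ∞`, the product condition `t_mix(1/4)/t_rel → ∞` implies that the lazy simple
random walks have total variation cutoff. -/
theorem result :
    ¬ (∀ (V : ℕ → Type) [∀ n, Fintype (V n)] [∀ n, DecidableEq (V n)]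
        (G : ∀ n, SimpleGraph (V n)) [∀ n, DecidableRel (G n).Adj],
        (∀ n, (G n).Connected) →
        (∀ n (u v : V n), ∃ φ : G n ≃g G n, φ u = v) →
        Tendsto (fun n => Fintype.card (V n)) atTop atTop →
        Tendsto (fun n => (tmix (lazyWalk (G n)) (1 / 4) : ℝ) / trel (lazyWalk (G n))) atTop atTop →
        ∀ ε : ℝ, 0 < ε → ε < 1 →
          Tendsto (fun n => (tmix (lazyWalk (G n)) ε : ℝ) / tmix (lazyWalk (G n)) (1 - ε))
            atTop (𝓝 1)) := by
  classical
  intro H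
  have h100 : ∀ n : ℕ, 100 ≤ n + 100 := fun n => by omega
  have h1 : ∀ n : ℕ, 1 ≤ n + 100 := fun n => by omega
  have hlow : ∀ n : ℕ, ∀ t ≤ n + 100, 27 / 40 ≤ Pak.tv (Pak.par n) t 0 :=
    fun n t ht => Pak.tv_lower (Pak.par n) (by omega) t ht 0
  have hup : ∀ n : ℕ, ∀ t, Pak.tv (Pak.par n) t 0 ≤
      (1 - Pak.bet (Pak.par n)) ^ t + 4 * Pak.bet (Pak.par n) :=
    fun n t => Pak.tv_upper (Pak.par n) (h1 n) t 0
  have h2 := H (fun n => Pak.VV (Pak.par n)) (fun n => Pak.GG (Pak.par n))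
    (fun n => Pak.GG_conn _) (fun n => Pak.GG_trans _)
    (by
      apply tendsto_atTop_mono (fun n => Pak.card_VV_ge (Pak.par n))
      exact tendsto_atTop_mono (fun n => Nat.le_add_right n 100) tendsto_id)
    (by
      simp_rw [lazy_eq, tmix_eq]
      have h3 : Tendsto (fun n : ℕ => (n : ℝ) / 6) atTop atTop :=
        tendsto_natCast_atTop_atTop.atTop_div_const (by norm_num)
      apply tendsto_atTop_mono _ h3
      intro n
      have h4 := Pak.tm_lower (ε := 1 / 4) (h100 n) (Pak.bet_pos (Pak.par n))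
        (Pak.bet_le (Pak.par n) (h1 n)) (hlow n) (hup n) (by norm_num) (by norm_num)
      have h5 := lam2_le (Pak.par n) (h1 n)
      unfold trel
      rw [div_div_eq_mul_div, div_one]
      have h6 : (n : ℝ) ≤ Pak.tm (fun t => Pak.tv (Pak.par n) t 0) (1 / 4) := by
        have : n ≤ Pak.tm (fun t => Pak.tv (Pak.par n) t 0) (1 / 4) := by omega
        exact_mod_cast this
      have h7 : (1 : ℝ) / 6 ≤ 1 - lam2 (Pak.PP (Pak.par n)) := by linarith
      calc (n : ℝ) / 6 = n * (1 / 6) := by ring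
        _ ≤ _ := mul_le_mul h6 h7 (by norm_num) (by positivity))
    (1 / 50) (by norm_num) (by norm_num)
  simp_rw [lazy_eq, tmix_eq] at h2
  have e : (1 : ℝ) - 1 / 50 = 49 / 50 := by norm_num
  rw [e] at h2
  refine Pak.not_tendsto_ratio _ _ (fun n => n + 100) (fun n => ⟨?_, ?_⟩) h2
  · exact Pak.tm_lower (h100 n) (Pak.bet_pos (Pak.par n))
      (Pak.bet_le (Pak.par n) (h1 n)) (hlow n) (hup n) (by norm_num) (by norm_num)
  · exact Pak.tm_upper (h100 n) (Pak.bet_le (Pak.par n) (h1 n)) (Pak.bet_ge (Pak.par n)) (hup n)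

end Pool.Agent.Results.MP_4b7267_pr.NoCutoff
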